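import Pool.Agent.H42.LTS.Symbol

set_option autoImplicit false
set_option linter.unusedSectionVars false

open MeasureTheory Real Filter Topology
open scoped FourierTransform RealInnerProductSpace SchwartzMap

namespace Pool.Agent.H42.LTS

variable (s : ℝ) [hs : Fact (1 < s)]

/-- Kinetic energy. -/
noncomputable def K (f : 𝓢(ℝ, ℂ)) : ℝ := ∫ ξ : ℝ, (w s) ξ * ‖𝓕 (fun x : ℝ => f x) ξ‖ ^ 2

/-- Squared norm. -/
noncomputable def N (f : 𝓢(ℝ, ℂ)) : ℝ := ∫ x : ℝ, ‖f x‖ ^ 2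

/-- Energy. -/
noncomputable def En (W : ℝ → ℝ) (f : 𝓢(ℝ, ℂ)) : ℝ := (K s) f - ∫ x : ℝ, W x * ‖f x‖ ^ 2

lemma fourier_fun (f : 𝓢(ℝ, ℂ)) (ξ : ℝ) : 𝓕 (fun x : ℝ => f x) ξ = (𝓕 f : 𝓢(ℝ, ℂ)) ξ := rfl

lemma w_le (ξ : ℝ) : w s ξ ≤ (2 * π) ^ (2 * s) * (1 + |ξ| ^ ⌈2 * s⌉₊) := by
  have hs1 := hs.out
  unfold w
  rw [Real.mul_rpow (by positivity) (abs_nonneg _)]
  apply mul_le_mul_of_nonneg_left _ (by positivity)
  rcases le_total 1 |ξ| with h | h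
  · calc |ξ| ^ (2 * s) ≤ |ξ| ^ ((⌈2 * s⌉₊ : ℕ) : ℝ) :=
          Real.rpow_le_rpow_of_exponent_le h (Nat.le_ceil _)
      _ = |ξ| ^ ⌈2 * s⌉₊ := Real.rpow_natCast _ _
      _ ≤ 1 + |ξ| ^ ⌈2 * s⌉₊ := by linarith
  · calc |ξ| ^ (2 * s) ≤ 1 := Real.rpow_le_one (abs_nonneg _) h (by linarith)
      _ ≤ 1 + |ξ| ^ ⌈2 * s⌉₊ := by
        have : 0 ≤ |ξ| ^ ⌈2 * s⌉₊ := by positivity
        linarith

lemma schwartz_bdd (f : 𝓢(ℝ, ℂ)) : ∃ C : ℝ, 0 ≤ C ∧ ∀ x, ‖f x‖ ≤ C := by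
  obtain ⟨C, hC0, hC⟩ := f.decay 0 0
  exact ⟨C, hC0.le, fun x => by simpa using hC x⟩

lemma integrable_sq (f : 𝓢(ℝ, ℂ)) : Integrable (fun x => ‖f x‖ ^ 2) := by
  obtain ⟨C, hC0, hC⟩ := schwartz_bdd f
  have h := (f.integrable (μ := volume)).norm.bdd_mul (c := C) (f := fun x => ‖f x‖)
    f.continuous.norm.aestronglyMeasurable
    (Filter.Eventually.of_forall (fun x => by rw [norm_norm]; exact hC x))
  refine h.congr (Filter.Eventually.of_forall (fun x => ?_))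
  simp only
  ring

lemma integrable_w_sq (f : 𝓢(ℝ, ℂ)) : Integrable (fun x => (w s) x * ‖f x‖ ^ 2) := by
  obtain ⟨C, hC0, hC⟩ := schwartz_bdd f
  have h0 := f.integrable_pow_mul (μ := volume) 0
  have h3 := f.integrable_pow_mul (μ := volume) ⌈2 * s⌉₊
  refine Integrable.mono' ((h0.add h3).const_mul ((2 * π) ^ (2 * s) * C))
    ((w_continuous s).mul (f.continuous.norm.pow 2)).aestronglyMeasurable
    (Filter.Eventually.of_forall (fun ξ => ?_))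
  rw [Real.norm_of_nonneg (mul_nonneg ((w_nonneg s) ξ) (by positivity))]
  simp only [Pi.add_apply, pow_zero, one_mul, Real.norm_eq_abs]
  have h1 := (w_le s) ξ
  have h2 := hC ξ
  have h4 : ‖f ξ‖ ^ 2 ≤ C * ‖f ξ‖ := by
    rw [sq]; exact mul_le_mul_of_nonneg_right h2 (norm_nonneg _)
  calc (w s) ξ * ‖f ξ‖ ^ 2 ≤ ((2 * π) ^ (2 * s) * (1 + |ξ| ^ ⌈2 * s⌉₊)) * (C * ‖f ξ‖) :=
        mul_le_mul h1 h4 (by positivity) (by positivity)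
    _ = (2 * π) ^ (2 * s) * C * (‖f ξ‖ + |ξ| ^ ⌈2 * s⌉₊ * ‖f ξ‖) := by ring

lemma integrable_W_sq {W : ℝ → ℝ} (hW : Integrable W) (f : 𝓢(ℝ, ℂ)) :
    Integrable (fun x => W x * ‖f x‖ ^ 2) := by
  obtain ⟨C, hC0, hC⟩ := schwartz_bdd f
  refine hW.mul_bdd (c := C ^ 2) (f.continuous.norm.pow 2).aestronglyMeasurable
    (Filter.Eventually.of_forall (fun x => ?_))
  rw [norm_pow, norm_norm]
  exact pow_le_pow_left₀ (norm_nonneg _) (hC x) 2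

lemma K_nonneg (f : 𝓢(ℝ, ℂ)) : 0 ≤ (K s) f :=
  integral_nonneg (fun ξ => mul_nonneg ((w_nonneg s) ξ) (by positivity))

lemma N_nonneg (f : 𝓢(ℝ, ℂ)) : 0 ≤ N f := integral_nonneg (fun ξ => by positivity)

lemma N_fourier (f : 𝓢(ℝ, ℂ)) : ∫ ξ, ‖(𝓕 f : 𝓢(ℝ, ℂ)) ξ‖ ^ 2 = N f :=
  f.integral_norm_sq_fourier

lemma N_pos {f : 𝓢(ℝ, ℂ)} (hf : f ≠ 0) : 0 < N f := by
  unfold N
  rw [integral_pos_iff_support_of_nonneg (fun ξ => by positivity) (integrable_sq f)]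
  have ho : IsOpen (Function.support (fun x => ‖f x‖ ^ 2)) :=
    (f.continuous.norm.pow 2).isOpen_support
  refine ho.measure_pos volume ?_
  by_contra hcon
  rw [Set.not_nonempty_iff_eq_empty] at hcon
  apply hf
  ext x
  by_contra hx
  have : x ∈ Function.support (fun x => ‖f x‖ ^ 2) := by
    simp only [Function.mem_support]
    have : ‖f x‖ ≠ 0 := by simpa using hx
    positivity
  rw [hcon] at this
  exact this

/-- Abstract optimisation form of the Cauchy-Schwarz inequality. -/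
lemma sq_le_of_forall {I A B : ℝ} (hI : 0 ≤ I) (hA : 0 < A) (hB : 0 ≤ B)
    (h : ∀ t : ℝ, 0 < t → 2 * I ≤ t * A + B / t) : I ^ 2 ≤ A * B := by
  rcases hI.eq_or_lt with h0 | h0
  · rw [← h0, zero_pow two_ne_zero]; positivity
  · have h1 := h (I / A) (by positivity)
    have h2 : I / A * A = I := by field_simp
    have h3 : B / (I / A) = A * B / I := by field_simp
    rw [h2, h3] at h1
    have h4 : I ≤ A * B / I := by linarith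
    rw [le_div_iff₀ h0] at h4
    nlinarith

lemma int_R_pos {l : ℝ} (hl : 0 < l) : 0 < ∫ ξ, (R s) l ξ := by
  rw [integral_pos_iff_support_of_nonneg (fun ξ => ((R_pos s) hl ξ).le) ((R_integrable s) hl)]
  have : Function.support ((R s) l) = Set.univ := by
    ext ξ
    simp [((R_pos s) hl ξ).ne']
  rw [this]
  simp

lemma energy_l (f : 𝓢(ℝ, ℂ)) (l : ℝ) :
    ∫ ξ, (l + (w s) ξ) * ‖(𝓕 f : 𝓢(ℝ, ℂ)) ξ‖ ^ 2 = l * N f + (K s) f := by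
  have h : ∀ ξ, (l + (w s) ξ) * ‖(𝓕 f : 𝓢(ℝ, ℂ)) ξ‖ ^ 2 =
      l * ‖(𝓕 f : 𝓢(ℝ, ℂ)) ξ‖ ^ 2 + (w s) ξ * ‖(𝓕 f : 𝓢(ℝ, ℂ)) ξ‖ ^ 2 := fun ξ => by ring
  simp_rw [h]
  rw [integral_add ((integrable_sq _).const_mul l) ((integrable_w_sq s) _), integral_const_mul,
    N_fourier]
  rfl

lemma norm_le_int (f : 𝓢(ℝ, ℂ)) (x : ℝ) : ‖f x‖ ≤ ∫ ξ, ‖(𝓕 f : 𝓢(ℝ, ℂ)) ξ‖ := by
  have h1 : f = 𝓕⁻ (𝓕 f : 𝓢(ℝ, ℂ)) := (FourierTransform.fourierInv_fourier_eq f).symm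
  conv_lhs => rw [h1]
  rw [SchwartzMap.fourierInv_coe, Real.fourierInv_eq']
  refine (norm_integral_le_integral_norm _).trans (le_of_eq ?_)
  congr 1
  funext ξ
  rw [norm_smul, Complex.norm_exp_ofReal_mul_I, one_mul]

/-- The sharp one-particle inequality. -/
lemma sup_bound (f : 𝓢(ℝ, ℂ)) {l : ℝ} (hl : 0 < l) (x : ℝ) :
    ‖f x‖ ^ 2 ≤ (∫ ξ, (R s) l ξ) * (l * N f + (K s) f) := by
  have h1 : ‖f x‖ ^ 2 ≤ (∫ ξ, ‖(𝓕 f : 𝓢(ℝ, ℂ)) ξ‖) ^ 2 :=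
    pow_le_pow_left₀ (norm_nonneg _) (norm_le_int f x) 2
  refine h1.trans ?_
  refine sq_le_of_forall (integral_nonneg (fun ξ => norm_nonneg _)) ((int_R_pos s) hl)
    (by have := N_nonneg f; have := (K_nonneg s) f; positivity) (fun t ht => ?_)
  have i1 : Integrable (fun ξ => t * (R s) l ξ) := ((R_integrable s) hl).const_mul t
  have i2 : Integrable (fun ξ => (l + (w s) ξ) * ‖(𝓕 f : 𝓢(ℝ, ℂ)) ξ‖ ^ 2) := by
    have h : (fun ξ => (l + (w s) ξ) * ‖(𝓕 f : 𝓢(ℝ, ℂ)) ξ‖ ^ 2) =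
      fun ξ => l * ‖(𝓕 f : 𝓢(ℝ, ℂ)) ξ‖ ^ 2 + (w s) ξ * ‖(𝓕 f : 𝓢(ℝ, ℂ)) ξ‖ ^ 2 := by
        funext ξ; ring
    rw [h]
    exact ((integrable_sq _).const_mul l).add ((integrable_w_sq s) _)
  have h2 : t * (∫ ξ, (R s) l ξ) + (l * N f + (K s) f) / t =
      ∫ ξ, (t * (R s) l ξ + ((l + (w s) ξ) * ‖(𝓕 f : 𝓢(ℝ, ℂ)) ξ‖ ^ 2) / t) := by
    rw [integral_add i1 (i2.div_const t), integral_const_mul, integral_div, (energy_l s)]
  rw [h2, ← integral_const_mul]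
  refine integral_mono (((𝓕 f : 𝓢(ℝ, ℂ)).integrable.norm).const_mul 2)
    (i1.add (i2.div_const t)) (fun ξ => ?_)
  simp only
  set a := ‖(𝓕 f : 𝓢(ℝ, ℂ)) ξ‖ with ha
  have hd := (den_pos s) hl ξ
  unfold R
  set d := l + (w s) ξ with hdd
  have h3 : t * (1 / d) + d * a ^ 2 / t - 2 * a = (t - d * a) ^ 2 / (d * t) := by
    field_simp
    ring
  have h4 : 0 ≤ (t - d * a) ^ 2 / (d * t) := by positivity
  linarith

/-- Scaling of resolvent integrals. -/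
lemma int_R_scale {y : ℝ} (hy : 0 < y) (F : ℝ → ℝ) :
    ∫ ξ, F ξ * (R s) (y ^ (2 * s)) ξ = y ^ (-(2 * s - 1)) * ∫ η, F (y * η) * (R s) 1 η := by
  have h := Measure.integral_comp_mul_left (fun ξ => F ξ * (R s) (y ^ (2 * s)) ξ) y
  have h1 : ∀ η, F (y * η) * (R s) (y ^ (2 * s)) (y * η) =
      y ^ (-(2 * s)) * (F (y * η) * (R s) 1 η) := by
    intro η
    unfold R
    rw [(w_mul s) hy.le, Real.rpow_neg hy.le]
    have h5 : 0 < y ^ (2 * s) := by positivity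
    have h6 := (den_pos s) one_pos η
    have h7 : y ^ (2 * s) + y ^ (2 * s) * (w s) η = y ^ (2 * s) * (1 + (w s) η) := by ring
    rw [h7]
    field_simp
  simp_rw [h1] at h
  rw [integral_const_mul, abs_of_pos (inv_pos.2 hy), smul_eq_mul] at h
  have h8 : ∫ ξ, F ξ * (R s) (y ^ (2 * s)) ξ = y * (y ^ (-(2 * s)) *
      ∫ η, F (y * η) * (R s) 1 η) := by
    rw [h]; field_simp
  rw [h8, ← mul_assoc]
  congr 1
  nth_rewrite 1 [← Real.rpow_one y]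
  rw [← Real.rpow_add hy]
  congr 1
  ring

lemma g_zero : (g s) 0 = ∫ ξ, (R s) 1 ξ := by
  unfold g
  congr 1
  funext ξ
  simp

lemma int_R {y : ℝ} (hy : 0 < y) : ∫ ξ, (R s) (y ^ (2 * s)) ξ = y ^ (-(2 * s - 1)) * (g s) 0 := by
  have h := (int_R_scale s) hy (fun _ => 1)
  simpa [(g_zero s)] using h

end Pool.Agent.H42.LTS
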