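import Mathlib

/-!
# Sharp constants of the critical fractional Lieb-Thirring inequality on the line: definitions
-/

set_option autoImplicit false

open MeasureTheory
open scoped FourierTransform ENNReal

namespace Pool.Agent.H42.LTS

/-- The Hilbert space `L²(ℝ)` of complex valued functions. -/
abbrev L2 : Type := Lp ℂ 2 (volume : Measure ℝ)

/-- The kinetic energy `∫ (2π|ξ|)^(2s) |f̂(ξ)|² dξ ∈ [0, ∞]` of `(-Δ)^s`; here `𝓕 f` is the Fourier
transform on `L²` (kernel `exp(-2πi x ξ)`). -/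
noncomputable def kin (s : ℝ) (f : L2) : ℝ≥0∞ :=
  ∫⁻ ξ : ℝ, ENNReal.ofReal ((2 * Real.pi * |ξ|) ^ (2 * s)) * ‖(𝓕 f : L2) ξ‖ₑ ^ 2

/-- The potentials of the problem: `V₋` is integrable and `V₊` is locally integrable. -/
def Admissible (V : ℝ → ℝ) : Prop :=
  Integrable (fun x => max (-V x) 0) ∧ LocallyIntegrable (fun x => max (V x) 0)

/-- The form domain of `(-Δ)^s + V`: all `f ∈ L²` with finite kinetic energy such that `V |f|²` is
integrable. -/
def formDomain (s : ℝ) (V : ℝ → ℝ) : Set L2 :=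
  {f | kin s f < ∞ ∧ Integrable (fun x => V x * ‖f x‖ ^ 2)}

/-- The quadratic form of `(-Δ)^s + V`. -/
noncomputable def energy (s : ℝ) (V : ℝ → ℝ) (f : L2) : ℝ :=
  (kin s f).toReal + ∫ x, V x * ‖f x‖ ^ 2

/-- The min-max values of the form: the infimum over the `(n+1)`-dimensional subspaces of the form
domain of the supremum of the form over the unit vectors (`n = 0, 1, 2, ..`). -/
noncomputable def minMax (s : ℝ) (V : ℝ → ℝ) (n : ℕ) : EReal :=
  ⨅ (U : Submodule ℂ L2) (_ : Module.finrank ℂ U = n + 1) (_ : (U : Set L2) ⊆ formDomain s V),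
    ⨆ (f : L2) (_ : f ∈ U) (_ : ‖f‖ = 1), ((energy s V f : ℝ) : EReal)

/-- `|E|^γ` for `E < 0` and `0` for `E ≥ 0`, with the critical exponent `γ = 1 - 1/(2s)`. -/
noncomputable def negPow (s : ℝ) (E : EReal) : ℝ≥0∞ := (-E).toENNReal ^ (1 - 1 / (2 * s))

/-- The sharp constant `L`: the least `C ∈ [0, ∞]` with `∑ₙ |Eₙ|^γ ≤ C ∫ V₋` for all admissible
`V`. -/
noncomputable def sharpConst (s : ℝ) : ℝ≥0∞ :=
  sInf {C | ∀ V : ℝ → ℝ, Admissible V →
    ∑' n, negPow s (minMax s V n) ≤ C * ∫⁻ x, ENNReal.ofReal (-V x)}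

/-- The one-particle constant: the least `C ∈ [0, ∞]` with `|E₀|^γ ≤ C ∫ V₋` for all admissible
`V`, where `E₀` is the bottom of the form. -/
noncomputable def oneParticleConst (s : ℝ) : ℝ≥0∞ :=
  sInf {C | ∀ V : ℝ → ℝ, Admissible V →
    negPow s (minMax s V 0) ≤ C * ∫⁻ x, ENNReal.ofReal (-V x)}

end Pool.Agent.H42.LTS
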