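import Pool.Agent.H42.LTS.Defs
import Pool.Agent.H42.LTS.Trial
set_option autoImplicit false
set_option linter.unusedSectionVars false
open MeasureTheory Real Filter Topology
open scoped FourierTransform RealInnerProductSpace SchwartzMap ContDiff ENNReal

namespace Pool.Agent.H42.LTS

lemma inv_continuous {u : ℝ → ℂ} (hu : Integrable u) : Continuous (𝓕⁻ u) := by
  have h : 𝓕⁻ u = fun x => 𝓕 (fun y => u (-y)) x := by
    rw [Real.fourierInv_eq_fourier_comp_neg]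
  rw [h]
  exact VectorFourier.fourierIntegral_continuous Real.continuous_fourierChar continuous_inner
    hu.comp_neg

lemma parseval_schwartz (φ : 𝓢(ℝ, ℂ)) {u : ℝ → ℂ} (hu : Integrable u) :
    ∫ ξ, (starRingEnd ℂ) ((𝓕 φ : 𝓢(ℝ, ℂ)) ξ) * u ξ = ∫ x, (starRingEnd ℂ) (φ x) * (𝓕⁻ u) x := by
  have h := VectorFourier.integral_sesq_fourierIntegral_eq_neg_flip (innerSL ℂ)
    (L := innerₗ ℝ) Real.continuous_fourierChar continuous_inner (φ.integrable (μ := volume)) hu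
  simp only [innerSL_apply_apply] at h
  have e1 : ∀ z w : ℂ, inner ℂ z w = (starRingEnd ℂ) z * w := fun z w => by
    rw [RCLike.inner_apply, mul_comm]
  simp_rw [e1] at h
  simpa using! h

/-- Fourier inversion for `L²` functions with integrable Fourier transform. -/
lemma ae_formula (f : L2) (hu : Integrable (fun ξ => (𝓕 f : L2) ξ)) :
    ∀ᵐ x, f x = 𝓕⁻ (fun ξ => (𝓕 f : L2) ξ) x := by
  have hloc1 : LocallyIntegrable (⇑f) volume := (Lp.memLp f).locallyIntegrable (by norm_num)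
  refine ae_eq_of_integral_contDiff_smul_eq hloc1 (inv_continuous hu).locallyIntegrable
    (fun g hg hgc => ?_)
  have hs : ContDiff ℝ ∞ (fun ξ => ((g ξ : ℝ) : ℂ)) := Complex.ofRealCLM.contDiff.comp hg
  have hc : HasCompactSupport (fun ξ => ((g ξ : ℝ) : ℂ)) :=
    hgc.comp_left (g := fun x : ℝ => (x : ℂ)) Complex.ofReal_zero
  set φ : 𝓢(ℝ, ℂ) := hc.toSchwartzMap hs with hφ
  have hφa : ∀ x, φ x = ((g x : ℝ) : ℂ) := fun x => rfl
  have e1 : ∀ z w : ℂ, inner ℂ z w = (starRingEnd ℂ) z * w := fun z w => by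
    rw [RCLike.inner_apply, mul_comm]
  have h1 : inner ℂ (φ.toLp 2 : L2) f = ∫ x, g x • f x := by
    rw [L2.inner_def]
    refine integral_congr_ae ?_
    filter_upwards [φ.coeFn_toLp 2 volume] with x hx
    rw [hx, e1, hφa, Complex.conj_ofReal, Complex.real_smul]
  have h2 : inner ℂ (φ.toLp 2 : L2) f = ∫ ξ, (starRingEnd ℂ) ((𝓕 φ : 𝓢(ℝ, ℂ)) ξ) * (𝓕 f : L2) ξ := by
    rw [← Lp.inner_fourier_eq, SchwartzMap.toLp_fourier_eq, L2.inner_def]
    refine integral_congr_ae ?_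
    filter_upwards [(𝓕 φ : 𝓢(ℝ, ℂ)).coeFn_toLp 2 volume] with x hx
    rw [hx, e1]
  rw [← h1, h2, parseval_schwartz φ hu]
  refine integral_congr_ae (Filter.Eventually.of_forall fun x => ?_)
  simp only
  rw [hφa, Complex.conj_ofReal, Complex.real_smul]

variable (s : ℝ) [hs : Fact (1 < s)]

lemma kin_eq (f : L2) : kin s f = ∫⁻ ξ : ℝ, ENNReal.ofReal (w s ξ * ‖(𝓕 f : L2) ξ‖ ^ 2) := by
  unfold kin
  refine lintegral_congr fun ξ => ?_
  rw [ENNReal.ofReal_mul (w_nonneg s ξ), ENNReal.ofReal_pow (norm_nonneg _), ofReal_norm]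
  rfl

lemma sq_integrable (f : L2) : Integrable (fun ξ => ‖f ξ‖ ^ 2) :=
  (Lp.memLp f).integrable_norm_pow (by norm_num)

lemma norm_sq (f : L2) : ‖f‖ ^ 2 = ∫ ξ, ‖f ξ‖ ^ 2 := by
  have h : ((‖f‖ ^ 2 : ℝ) : ℂ) = ((∫ ξ, ‖f ξ‖ ^ 2 : ℝ) : ℂ) := by
    have h1 := inner_self_eq_norm_sq_to_K (𝕜 := ℂ) f
    rw [L2.inner_def] at h1
    simp_rw [inner_self_eq_norm_sq_to_K] at h1
    have h2 : ∫ a : ℝ, (((‖f a‖ : ℝ) : ℂ)) ^ 2 = ((∫ ξ, ‖f ξ‖ ^ 2 : ℝ) : ℂ) := by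
      rw [← integral_complex_ofReal]
      refine integral_congr_ae (Filter.Eventually.of_forall fun x => ?_)
      simp
    have h3 : ((‖f‖ ^ 2 : ℝ) : ℂ) = (((‖f‖ : ℝ) : ℂ)) ^ 2 := by push_cast; rfl
    rw [h3, ← h2]
    exact h1.symm
  exact_mod_cast h

lemma w_meas (f : L2) : AEStronglyMeasurable (fun ξ => w s ξ * ‖(𝓕 f : L2) ξ‖ ^ 2) volume :=
  (w_continuous s).aestronglyMeasurable.mul ((Lp.aestronglyMeasurable (𝓕 f : L2)).norm.pow 2)

lemma kin_integrable {f : L2} (hf : kin s f < ⊤) :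
    Integrable (fun ξ => w s ξ * ‖(𝓕 f : L2) ξ‖ ^ 2) := by
  refine ⟨w_meas s f, ?_⟩
  rw [hasFiniteIntegral_iff_norm]
  rw [kin_eq s f] at hf
  refine lt_of_le_of_lt (lintegral_mono fun ξ => ?_) hf
  rw [Real.norm_of_nonneg (mul_nonneg (w_nonneg s ξ) (by positivity))]

lemma kin_toReal (f : L2) : (kin s f).toReal = ∫ ξ, w s ξ * ‖(𝓕 f : L2) ξ‖ ^ 2 := by
  rw [kin_eq s f, integral_eq_lintegral_of_nonneg_ae
    (Filter.Eventually.of_forall fun ξ => mul_nonneg (w_nonneg s ξ) (by positivity)) (w_meas s f)]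

/-- The weighted energy of the Fourier transform. -/
lemma energy_l2 {f : L2} (hf : kin s f < ⊤) (l : ℝ) :
    ∫ ξ, (l + w s ξ) * ‖(𝓕 f : L2) ξ‖ ^ 2 = l * ‖f‖ ^ 2 + (kin s f).toReal := by
  have h : ∀ ξ, (l + w s ξ) * ‖(𝓕 f : L2) ξ‖ ^ 2 =
      l * ‖(𝓕 f : L2) ξ‖ ^ 2 + w s ξ * ‖(𝓕 f : L2) ξ‖ ^ 2 := fun ξ => by ring
  simp_rw [h]
  rw [integral_add ((sq_integrable _).const_mul l) (kin_integrable s hf), integral_const_mul,
    kin_toReal s, ← norm_sq, Lp.norm_fourier_eq]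

lemma fourier_integrable {f : L2} (hf : kin s f < ⊤) : Integrable (fun ξ => (𝓕 f : L2) ξ) := by
  have h1 : Integrable (fun ξ => R s 1 ξ + (‖(𝓕 f : L2) ξ‖ ^ 2 + w s ξ * ‖(𝓕 f : L2) ξ‖ ^ 2)) :=
    (R_integrable s one_pos).add ((sq_integrable _).add (kin_integrable s hf))
  refine h1.mono' (Lp.aestronglyMeasurable _) (Filter.Eventually.of_forall fun ξ => ?_)
  set a := ‖(𝓕 f : L2) ξ‖ with ha
  have hd := den_pos s one_pos ξ
  unfold R
  set d := 1 + w s ξ with hdd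
  have h3 : 1 / d + d * a ^ 2 - a = ((1 - d * a) ^ 2 + d * a) / d := by
    field_simp
    ring
  have h4 : 0 ≤ ((1 - d * a) ^ 2 + d * a) / d := by positivity
  have h5 : d * a ^ 2 = a ^ 2 + w s ξ * a ^ 2 := by rw [hdd]; ring
  linarith

/-- The sharp one-particle inequality in the form domain. -/
lemma sup_bound2 {f : L2} (hf : kin s f < ⊤) {l : ℝ} (hl : 0 < l) :
    ∀ᵐ x, ‖f x‖ ^ 2 ≤ (∫ ξ, R s l ξ) * (l * ‖f‖ ^ 2 + (kin s f).toReal) := by
  have hu := fourier_integrable s hf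
  filter_upwards [ae_formula f hu] with x hx
  have h0 : ‖f x‖ ≤ ∫ ξ, ‖(𝓕 f : L2) ξ‖ := by
    rw [hx, Real.fourierInv_eq']
    refine (norm_integral_le_integral_norm _).trans (le_of_eq ?_)
    congr 1
    funext ξ
    rw [norm_smul, Complex.norm_exp_ofReal_mul_I, one_mul]
  have h1 : ‖f x‖ ^ 2 ≤ (∫ ξ, ‖(𝓕 f : L2) ξ‖) ^ 2 := pow_le_pow_left₀ (norm_nonneg _) h0 2
  refine h1.trans ?_
  refine sq_le_of_forall (integral_nonneg (fun ξ => norm_nonneg _)) (int_R_pos s hl)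
    (by have := ENNReal.toReal_nonneg (a := kin s f); positivity) (fun t ht => ?_)
  have i1 : Integrable (fun ξ => t * R s l ξ) := (R_integrable s hl).const_mul t
  have i2 : Integrable (fun ξ => (l + w s ξ) * ‖(𝓕 f : L2) ξ‖ ^ 2) := by
    have h : (fun ξ => (l + w s ξ) * ‖(𝓕 f : L2) ξ‖ ^ 2) =
      fun ξ => l * ‖(𝓕 f : L2) ξ‖ ^ 2 + w s ξ * ‖(𝓕 f : L2) ξ‖ ^ 2 := by
        funext ξ; ring
    rw [h]
    exact ((sq_integrable _).const_mul l).add (kin_integrable s hf)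
  have h2 : t * (∫ ξ, R s l ξ) + (l * ‖f‖ ^ 2 + (kin s f).toReal) / t =
      ∫ ξ, (t * R s l ξ + ((l + w s ξ) * ‖(𝓕 f : L2) ξ‖ ^ 2) / t) := by
    rw [integral_add i1 (i2.div_const t), integral_const_mul, integral_div, energy_l2 s hf]
  rw [h2, ← integral_const_mul]
  refine integral_mono (hu.norm.const_mul 2) (i1.add (i2.div_const t)) (fun ξ => ?_)
  simp only
  set a := ‖(𝓕 f : L2) ξ‖ with ha
  have hd := den_pos s hl ξ
  unfold R
  set d := l + w s ξ with hdd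
  have h3 : t * (1 / d) + d * a ^ 2 / t - 2 * a = (t - d * a) ^ 2 / (d * t) := by
    field_simp
    ring
  have h4 : 0 ≤ (t - d * a) ^ 2 / (d * t) := by positivity
  linarith

end Pool.Agent.H42.LTS
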