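import Pool.Agent.H42.LTS.Trial

set_option autoImplicit false
set_option linter.unusedSectionVars false

open MeasureTheory Real Filter Topology
open scoped FourierTransform RealInnerProductSpace SchwartzMap ContDiff

namespace Pool.Agent.H42.LTS

variable (s : ℝ) [hs : Fact (1 < s)]

/-- Orthogonality of even and odd functions. -/
lemma parity_sum {ρ : ℝ → ℝ} (hrho : ∀ x, ρ (-x) = ρ x) {u v : ℝ → ℂ}
    (hu : ∀ x, u (-x) = u x) (hv : ∀ x, v (-x) = -v x)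
    (hi : Integrable (fun x => ρ x * ‖u x + v x‖ ^ 2))
    (hiu : Integrable (fun x => ρ x * ‖u x‖ ^ 2)) (hiv : Integrable (fun x => ρ x * ‖v x‖ ^ 2)) :
    ∫ x, ρ x * ‖u x + v x‖ ^ 2 = (∫ x, ρ x * ‖u x‖ ^ 2) + ∫ x, ρ x * ‖v x‖ ^ 2 := by
  have h1 : ∫ x, ρ x * ‖u x - v x‖ ^ 2 = ∫ x, ρ x * ‖u x + v x‖ ^ 2 := by
    rw [← integral_neg_eq_self (fun x => ρ x * ‖u x + v x‖ ^ 2)]
    congr 1; funext x
    rw [hrho, hu, hv, ← sub_eq_add_neg]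
  have hi' : Integrable (fun x => ρ x * ‖u x - v x‖ ^ 2) := by
    have := hi.comp_neg
    refine this.congr (Filter.Eventually.of_forall (fun x => ?_))
    simp only
    rw [hrho, hu, hv, ← sub_eq_add_neg]
  have h2 : (∫ x, ρ x * ‖u x + v x‖ ^ 2) + ∫ x, ρ x * ‖u x - v x‖ ^ 2 =
      2 * ((∫ x, ρ x * ‖u x‖ ^ 2) + ∫ x, ρ x * ‖v x‖ ^ 2) := by
    rw [← integral_add hi hi', ← integral_add hiu hiv, ← integral_const_mul]
    congr 1; funext x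
    have h3 : ‖u x + v x‖ ^ 2 + ‖u x - v x‖ ^ 2 = 2 * (‖u x‖ ^ 2 + ‖v x‖ ^ 2) := by
      have := parallelogram_law_with_norm ℝ (u x) (v x)
      nlinarith
    calc ρ x * ‖u x + v x‖ ^ 2 + ρ x * ‖u x - v x‖ ^ 2
        = ρ x * (‖u x + v x‖ ^ 2 + ‖u x - v x‖ ^ 2) := by ring
      _ = 2 * (ρ x * ‖u x‖ ^ 2 + ρ x * ‖v x‖ ^ 2) := by rw [h3]; ring
  linarith

lemma En_add {W : ℝ → ℝ} (hW : Integrable W) (hWe : ∀ x, W (-x) = W x) {f₁ f₂ : 𝓢(ℝ, ℂ)}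
    (h1 : ∀ x, f₁ (-x) = f₁ x) (h2 : ∀ x, f₂ (-x) = -f₂ x)
    (h3 : ∀ x, (𝓕 f₁ : 𝓢(ℝ, ℂ)) (-x) = (𝓕 f₁ : 𝓢(ℝ, ℂ)) x)
    (h4 : ∀ x, (𝓕 f₂ : 𝓢(ℝ, ℂ)) (-x) = -(𝓕 f₂ : 𝓢(ℝ, ℂ)) x) (a b : ℂ) :
    (En s) W (a • f₁ + b • f₂) = ‖a‖ ^ 2 * (En s) W f₁ + ‖b‖ ^ 2 * (En s) W f₂ ∧
      N (a • f₁ + b • f₂) = ‖a‖ ^ 2 * N f₁ + ‖b‖ ^ 2 * N f₂ := by
  have hF : (𝓕 (a • f₁ + b • f₂) : 𝓢(ℝ, ℂ)) = a • (𝓕 f₁ : 𝓢(ℝ, ℂ)) + b • (𝓕 f₂ : 𝓢(ℝ, ℂ)) := by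
    rw [FourierTransform.fourier_add, FourierTransform.fourier_smul,
      FourierTransform.fourier_smul]
  have hsm : ∀ (ρ : ℝ → ℝ) (c : ℂ) (f : 𝓢(ℝ, ℂ)), ∫ x, ρ x * ‖c * f x‖ ^ 2 =
      ‖c‖ ^ 2 * ∫ x, ρ x * ‖f x‖ ^ 2 := by
    intro ρ c f
    rw [← integral_const_mul]
    congr 1; funext x
    rw [norm_mul]; ring
  have hpot : ∫ x, W x * ‖(a • f₁ + b • f₂) x‖ ^ 2 =
      ‖a‖ ^ 2 * (∫ x, W x * ‖f₁ x‖ ^ 2) + ‖b‖ ^ 2 * ∫ x, W x * ‖f₂ x‖ ^ 2 := by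
    have h := parity_sum (u := fun x => a * f₁ x) (v := fun x => b * f₂ x) hWe
      (fun x => by simp only [h1]) (fun x => by simp only [h2]; ring)
      (integrable_W_sq hW (a • f₁ + b • f₂)) (integrable_W_sq hW (a • f₁))
      (integrable_W_sq hW (b • f₂))
    rw [hsm, hsm] at h
    exact h
  have hnorm : ∫ x, ‖(a • f₁ + b • f₂) x‖ ^ 2 =
      ‖a‖ ^ 2 * (∫ x, ‖f₁ x‖ ^ 2) + ‖b‖ ^ 2 * ∫ x, ‖f₂ x‖ ^ 2 := by
    have h := parity_sum (ρ := fun _ => 1) (u := fun x => a * f₁ x) (v := fun x => b * f₂ x)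
      (fun _ => rfl)
      (fun x => by simp only [h1]) (fun x => by simp only [h2]; ring)
      ((integrable_sq (a • f₁ + b • f₂)).const_mul 1) ((integrable_sq (a • f₁)).const_mul 1)
      ((integrable_sq (b • f₂)).const_mul 1)
    rw [hsm, hsm] at h
    simp only [one_mul] at h
    exact h
  have hkin : ∫ x, (w s) x * ‖(a • (𝓕 f₁ : 𝓢(ℝ, ℂ)) + b • (𝓕 f₂ : 𝓢(ℝ, ℂ))) x‖ ^ 2 =
      ‖a‖ ^ 2 * (∫ x, (w s) x * ‖(𝓕 f₁ : 𝓢(ℝ, ℂ)) x‖ ^ 2) +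
        ‖b‖ ^ 2 * ∫ x, (w s) x * ‖(𝓕 f₂ : 𝓢(ℝ, ℂ)) x‖ ^ 2 := by
    have h := parity_sum (u := fun x => a * (𝓕 f₁ : 𝓢(ℝ, ℂ)) x)
      (v := fun x => b * (𝓕 f₂ : 𝓢(ℝ, ℂ)) x) (w_neg s)
      (fun x => by simp only [h3]) (fun x => by simp only [h4]; ring)
      ((integrable_w_sq s) (a • (𝓕 f₁ : 𝓢(ℝ, ℂ)) + b • (𝓕 f₂ : 𝓢(ℝ, ℂ))))
      ((integrable_w_sq s) (a • (𝓕 f₁ : 𝓢(ℝ, ℂ)))) ((integrable_w_sq s) (b • (𝓕 f₂ : 𝓢(ℝ, ℂ))))
    rw [hsm, hsm] at h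
    exact h
  constructor
  · unfold En
    have hK : ∀ f : 𝓢(ℝ, ℂ), (K s) f = ∫ x, (w s) x * ‖(𝓕 f : 𝓢(ℝ, ℂ)) x‖ ^ 2 := fun f => rfl
    rw [hK, hK, hK, hF, hkin, hpot]
    ring
  · exact hnorm

/-- The double well potential. -/
noncomputable def well (a ε : ℝ) (x : ℝ) : ℝ :=
  (Set.Ioo (1 / 2 - ε) (1 / 2 + ε)).indicator (fun _ => a / (2 * ε)) x +
    (Set.Ioo (1 / 2 - ε) (1 / 2 + ε)).indicator (fun _ => a / (2 * ε)) (-x)

lemma well_neg (a ε x : ℝ) : well a ε (-x) = well a ε x := by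
  unfold well; rw [neg_neg, add_comm]

lemma well_nonneg {a ε : ℝ} (ha : 0 ≤ a) (hε : 0 < ε) (x : ℝ) : 0 ≤ well a ε x := by
  unfold well
  apply add_nonneg <;> exact Set.indicator_nonneg (fun _ _ => by positivity) _

lemma ind_integrable (a ε : ℝ) : Integrable
    (fun x => (Set.Ioo (1 / 2 - ε) (1 / 2 + ε)).indicator (fun _ => a / (2 * ε)) x) := by
  rw [integrable_indicator_iff measurableSet_Ioo]
  exact integrableOn_const (by simp)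

lemma well_integrable (a ε : ℝ) : Integrable (well a ε) := by
  unfold well
  exact (ind_integrable a ε).add (ind_integrable a ε).comp_neg

lemma well_integral {a ε : ℝ} (hε : 0 < ε) : ∫ x, well a ε x = 2 * a := by
  unfold well
  have h1 : ∫ x, (Set.Ioo (1 / 2 - ε) (1 / 2 + ε)).indicator (fun _ => a / (2 * ε)) x = a := by
    rw [integral_indicator_const _ measurableSet_Ioo]
    simp only [smul_eq_mul, Measure.real, Real.volume_Ioo]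
    rw [ENNReal.toReal_ofReal (by linarith)]
    field_simp
    ring
  rw [integral_add (ind_integrable a ε) (ind_integrable a ε).comp_neg,
    integral_neg_eq_self (fun x => (Set.Ioo (1 / 2 - ε) (1 / 2 + ε)).indicator
      (fun _ => a / (2 * ε)) x), h1]
  ring

lemma well_support {a ε x : ℝ} (hx : well a ε x ≠ 0) :
    x ∈ Metric.ball (1 / 2 : ℝ) ε ∨ x ∈ Metric.ball (-(1 / 2) : ℝ) ε := by
  unfold well at hx
  by_contra hcon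
  push Not at hcon
  obtain ⟨h1, h2⟩ := hcon
  rw [Real.ball_eq_Ioo] at h1 h2
  apply hx
  rw [Set.indicator_of_notMem h1, Set.indicator_of_notMem, add_zero]
  intro h3
  apply h2
  constructor
  · linarith [h3.2]
  · linarith [h3.1]

/-- The energy of a (trial s) function in a narrow double well. -/
lemma En_trial {a ε l J : ℝ} (ha : 0 < a) (hε : 0 < ε) {f : 𝓢(ℝ, ℂ)}
    (hJ : l * N f + (K s) f ≤ J)
    (h1 : ∀ x ∈ Metric.ball (1 / 2 : ℝ) ε, J ≤ 2 * a * ‖f x‖ ^ 2)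
    (h2 : ∀ x ∈ Metric.ball (-(1 / 2) : ℝ) ε, J ≤ 2 * a * ‖f x‖ ^ 2) :
    (En s) (well a ε) f ≤ -l * N f := by
  have h3 : J ≤ ∫ x, well a ε x * ‖f x‖ ^ 2 := by
    have h4 : J = ∫ x, well a ε x * (J / (2 * a)) := by
      rw [integral_mul_const, well_integral hε]; field_simp
    rw [h4]
    refine integral_mono ((well_integrable a ε).mul_const _)
      (integrable_W_sq (well_integrable a ε) f) (fun x => ?_)
    simp only
    by_cases hx : well a ε x = 0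
    · rw [hx, zero_mul, zero_mul]
    · apply mul_le_mul_of_nonneg_left _ (well_nonneg ha.le hε x)
      rw [div_le_iff₀ (by positivity)]
      rcases well_support hx with h | h
      · linarith [h1 x h]
      · linarith [h2 x h]
  unfold En
  linarith

lemma eventually_ball {f : 𝓢(ℝ, ℂ)} {a J x₀ : ℝ} (ha : 0 < a) (hJ0 : 0 < J) (hJ : 1 < 2 * a * J)
    (h : J ≤ ‖f x₀‖) : ∀ᶠ x in 𝓝 x₀, J ≤ 2 * a * ‖f x‖ ^ 2 := by
  have hcont : Continuous (fun x => 2 * a * ‖f x‖ ^ 2) :=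
    continuous_const.mul (f.continuous.norm.pow 2)
  have h1 : J < 2 * a * ‖f x₀‖ ^ 2 := by
    have h2 : J ^ 2 ≤ ‖f x₀‖ ^ 2 := pow_le_pow_left₀ hJ0.le h 2
    have h3 : J < 2 * a * J ^ 2 := by nlinarith
    nlinarith
  exact (hcont.continuousAt.eventually (lt_mem_nhds h1)).mono (fun x hx => hx.le)

/-- The two-particle energy of the double well. -/
lemma two_well {a l₁ l₂ : ℝ} (ha : 0 < a) (hl₂ : 0 < l₂) (hl : l₂ ≤ l₁)
    (hc : 1 < 2 * a * ∫ ξ, cos (π * ξ) ^ 2 * (R s) l₂ ξ)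
    (hs : 1 < 2 * a * ∫ ξ, sin (π * ξ) ^ 2 * (R s) l₁ ξ) :
    ∃ W : ℝ → ℝ, (∀ x, 0 ≤ W x) ∧ Integrable W ∧ ∫ x, W x = 2 * a ∧
      ∃ f₁ f₂ : 𝓢(ℝ, ℂ), 0 < N f₁ ∧ 0 < N f₂ ∧
        (∀ b : ℂ, En s W (b • f₁) ≤ -l₁ * N (b • f₁)) ∧
        (∀ c b : ℂ, En s W (c • f₂ + b • f₁) ≤ -l₂ * N (c • f₂ + b • f₁)) ∧
        ∀ c b : ℂ, N (c • f₂ + b • f₁) = ‖c‖ ^ 2 * N f₂ + ‖b‖ ^ 2 * N f₁ := by
  have hl₁ : 0 < l₁ := lt_of_lt_of_le hl₂ hl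
  obtain ⟨f₂, J₂, hJ2, hJ2a, hE2, h2p, h2m, hpar2, hparF2⟩ := (trial s) (σ := 1) hl₂
    (q := fun ξ => cos (π * ξ)) (by fun_prop) (fun x => Real.abs_cos_le_one _)
    (fun ξ => by simp [mul_neg, Real.cos_neg]) (Or.inl (fun ξ => rfl)) hc ha
  obtain ⟨f₁, J₁, hJ1, hJ1a, hE1, h1p, h1m, hpar1, hparF1⟩ := (trial s) (σ := -1) hl₁
    (q := fun ξ => sin (π * ξ)) (by fun_prop) (fun x => Real.abs_sin_le_one _)
    (fun ξ => by simp [mul_neg, Real.sin_neg]) (Or.inr (fun ξ => rfl)) hs ha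
  have hev : ∀ᶠ ε in 𝓝[>] (0 : ℝ), (∀ x ∈ Metric.ball (1 / 2 : ℝ) ε, J₁ ≤ 2 * a * ‖f₁ x‖ ^ 2) ∧
      (∀ x ∈ Metric.ball (-(1 / 2) : ℝ) ε, J₁ ≤ 2 * a * ‖f₁ x‖ ^ 2) ∧
      (∀ x ∈ Metric.ball (1 / 2 : ℝ) ε, J₂ ≤ 2 * a * ‖f₂ x‖ ^ 2) ∧
      (∀ x ∈ Metric.ball (-(1 / 2) : ℝ) ε, J₂ ≤ 2 * a * ‖f₂ x‖ ^ 2) := by
    have key : ∀ (p : ℝ → Prop) (x₀ : ℝ), (∀ᶠ x in 𝓝 x₀, p x) →
        ∀ᶠ ε in 𝓝[>] (0 : ℝ), ∀ x ∈ Metric.ball x₀ ε, p x := by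
      intro p x₀ hp
      obtain ⟨δ, hδ, hδ'⟩ := Metric.eventually_nhds_iff_ball.1 hp
      filter_upwards [Ioo_mem_nhdsGT hδ] with ε hε x hx
      exact hδ' x (Metric.ball_subset_ball hε.2.le hx)
    filter_upwards [key _ _ (eventually_ball ha hJ1 hJ1a h1p),
      key _ _ (eventually_ball ha hJ1 hJ1a h1m), key _ _ (eventually_ball ha hJ2 hJ2a h2p),
      key _ _ (eventually_ball ha hJ2 hJ2a h2m)] with ε h1 h2 h3 h4
    exact ⟨h1, h2, h3, h4⟩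
  obtain ⟨ε, ⟨hb1, hb2, hb3, hb4⟩, hε⟩ := (hev.and self_mem_nhdsWithin).exists
  have hε' : (0 : ℝ) < ε := hε
  have hEn1 : (En s) (well a ε) f₁ ≤ -l₁ * N f₁ := (En_trial s) ha hε' hE1 hb1 hb2
  have hEn2 : (En s) (well a ε) f₂ ≤ -l₂ * N f₂ := (En_trial s) ha hε' hE2 hb3 hb4
  have hp1 : ∀ x, f₁ (-x) = -f₁ x := fun x => by rw [hpar1]; simp
  have hp2 : ∀ x, f₂ (-x) = f₂ x := fun x => by rw [hpar2]; simp
  have hpF1 : ∀ x, (𝓕 f₁ : 𝓢(ℝ, ℂ)) (-x) = -(𝓕 f₁ : 𝓢(ℝ, ℂ)) x := fun x => by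
    rw [hparF1]; simp
  have hpF2 : ∀ x, (𝓕 f₂ : 𝓢(ℝ, ℂ)) (-x) = (𝓕 f₂ : 𝓢(ℝ, ℂ)) x := fun x => by
    rw [hparF2]; simp
  have hadd := (En_add s) (well_integrable a ε) (well_neg a ε) hp2 hp1 hpF2 hpF1
  have hf1 : f₁ ≠ 0 := by
    rintro rfl
    simp at h1p
    linarith
  have hf2 : f₂ ≠ 0 := by
    rintro rfl
    simp at h2p
    linarith
  have hN1 := N_pos hf1
  have hN2 := N_pos hf2
  refine ⟨well a ε, well_nonneg ha.le hε', well_integrable a ε, well_integral hε', f₁, f₂,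
    hN1, hN2, ?_, ?_, fun c b => (hadd c b).2⟩
  · intro b
    have h := hadd 0 b
    rw [zero_smul, zero_add, norm_zero] at h
    rw [h.1, h.2]
    have : 0 ≤ ‖b‖ ^ 2 := by positivity
    nlinarith
  · intro c b
    have h := hadd c b
    rw [h.1, h.2]
    have h1 : 0 ≤ ‖c‖ ^ 2 := by positivity
    have h2 : 0 ≤ ‖b‖ ^ 2 := by positivity
    have h3 : En s (well a ε) f₁ ≤ -l₂ * N f₁ := hEn1.trans (by nlinarith)
    nlinarith

/-- Cosine and sine integrals against the resolvent symbol. -/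
lemma int_cos_sq {y : ℝ} (hy : 0 < y) : ∫ ξ, cos (π * ξ) ^ 2 * (R s) (y ^ (2 * s)) ξ =
    y ^ (-(2 * s - 1)) * (((g s) 0 + (g s) y) / 2) := by
  rw [(int_R_scale s) hy (fun ξ => cos (π * ξ) ^ 2)]
  congr 1
  have h : ∀ η, cos (π * (y * η)) ^ 2 * (R s) 1 η =
      (cos (2 * π * 0 * η) * (R s) 1 η + cos (2 * π * y * η) * (R s) 1 η) / 2 := by
    intro η
    rw [Real.cos_sq, show 2 * π * 0 * η = 0 by ring, Real.cos_zero,
      show 2 * (π * (y * η)) = 2 * π * y * η by ring]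
    ring
  simp_rw [h]
  rw [integral_div, integral_add]
  · rfl
  · exact (R_mul_integrable s) one_pos (by fun_prop) (fun x => Real.abs_cos_le_one _)
  · exact (R_mul_integrable s) one_pos (by fun_prop) (fun x => Real.abs_cos_le_one _)

lemma int_sin_sq {y : ℝ} (hy : 0 < y) : ∫ ξ, sin (π * ξ) ^ 2 * (R s) (y ^ (2 * s)) ξ =
    y ^ (-(2 * s - 1)) * (((g s) 0 - (g s) y) / 2) := by
  rw [(int_R_scale s) hy (fun ξ => sin (π * ξ) ^ 2)]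
  congr 1
  have h : ∀ η, sin (π * (y * η)) ^ 2 * (R s) 1 η =
      (cos (2 * π * 0 * η) * (R s) 1 η - cos (2 * π * y * η) * (R s) 1 η) / 2 := by
    intro η
    rw [Real.sin_sq, Real.cos_sq, show 2 * π * 0 * η = 0 by ring, Real.cos_zero,
      show 2 * (π * (y * η)) = 2 * π * y * η by ring]
    ring
  simp_rw [h]
  rw [integral_div, integral_sub]
  · rfl
  · exact (R_mul_integrable s) one_pos (by fun_prop) (fun x => Real.abs_cos_le_one _)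
  · exact (R_mul_integrable s) one_pos (by fun_prop) (fun x => Real.abs_cos_le_one _)

/-- There is a potential with two orthogonal trial functions that violate the one-particle
bound. -/
theorem violation : ∃ W : ℝ → ℝ, (∀ x, 0 ≤ W x) ∧ Integrable W ∧ 0 < ∫ x, W x ∧
    ∃ l₁ l₂ : ℝ, 0 < l₁ ∧ 0 < l₂ ∧
      g s 0 * ∫ x, W x < l₁ ^ (1 - 1 / (2 * s)) + l₂ ^ (1 - 1 / (2 * s)) ∧
      ∃ f₁ f₂ : 𝓢(ℝ, ℂ), 0 < N f₁ ∧ 0 < N f₂ ∧
        (∀ b : ℂ, En s W (b • f₁) ≤ -l₁ * N (b • f₁)) ∧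
        (∀ c b : ℂ, En s W (c • f₂ + b • f₁) ≤ -l₂ * N (c • f₂ + b • f₁)) ∧
        ∀ c b : ℂ, N (c • f₂ + b • f₁) = ‖c‖ ^ 2 * N f₂ + ‖b‖ ^ 2 * N f₁ := by
  have h1s := hs.out
  have hp1 : 0 < 2 * s - 1 := by linarith
  have hg0 := (g_zero_pos s)
  obtain ⟨Y, hY, hgY⟩ := (exists_g_neg s)
  -- the first point where the minimum of `(g s)` over `[0, Y]` is attained
  obtain ⟨z, hz, hzmin⟩ := (isCompact_Icc (a := (0 : ℝ)) (b := Y)).exists_isMinOn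
    ⟨0, by constructor <;> linarith⟩ (g_continuous s).continuousOn
  have hcomp : IsCompact {x ∈ Set.Icc (0 : ℝ) Y | (g s) x ≤ (g s) z} := by
    have : {x ∈ Set.Icc (0 : ℝ) Y | (g s) x ≤ (g s) z} = Set.Icc 0 Y ∩ (g s) ⁻¹' Set.Iic ((g s) z) := by
      ext x; simp
    rw [this]
    exact isCompact_Icc.inter_right (isClosed_Iic.preimage (g_continuous s))
  obtain ⟨y₁, hy₁mem, hy₁least⟩ := hcomp.exists_isLeast ⟨z, hz, le_rfl⟩
  obtain ⟨⟨hy₁0, hy₁Y⟩, hy₁z⟩ := hy₁mem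
  have hgz : (g s) z ≤ (g s) Y := hzmin ⟨hY.le, le_rfl⟩
  have hgy₁ : (g s) y₁ < 0 := by linarith
  have hy₁pos : 0 < y₁ := by
    rcases hy₁0.eq_or_lt with h | h
    · rw [← h] at hgy₁; linarith
    · exact h
  have hstrict : ∀ x, 0 ≤ x → x < y₁ → (g s) y₁ < (g s) x := by
    intro x hx0 hx
    by_contra hcon
    push Not at hcon
    have : y₁ ≤ x := hy₁least ⟨⟨hx0, by linarith⟩, by linarith⟩
    linarith
  set α : ℝ := y₁ ^ (2 * s - 1) / ((g s) 0 - (g s) y₁) with hα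
  have hden : 0 < (g s) 0 - (g s) y₁ := by linarith
  have hαpos : 0 < α := by positivity
  have hα1 : y₁ ^ (2 * s - 1) = α * ((g s) 0 - (g s) y₁) := by rw [hα]; field_simp
  -- intermediate value theorem
  have hcont : ContinuousOn (fun x => α * ((g s) 0 + (g s) x) - x ^ (2 * s - 1)) (Set.Icc 0 y₁) := by
    apply Continuous.continuousOn
    exact (continuous_const.mul (continuous_const.add (g_continuous s))).sub
      (Real.continuous_rpow_const hp1.le)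
  have hivt := intermediate_value_Icc' hy₁pos.le hcont
  have h0mem : (0 : ℝ) ∈ Set.Icc (α * ((g s) 0 + (g s) y₁) - y₁ ^ (2 * s - 1))
      (α * ((g s) 0 + (g s) 0) - (0 : ℝ) ^ (2 * s - 1)) := by
    constructor
    · rw [hα1]; nlinarith
    · rw [Real.zero_rpow hp1.ne']; nlinarith
  obtain ⟨y₂, ⟨hy₂0, hy₂1⟩, hy₂⟩ := hivt h0mem
  simp only at hy₂
  have hy₂pos : 0 < y₂ := by
    rcases hy₂0.eq_or_lt with h | h
    · rw [← h, Real.zero_rpow hp1.ne'] at hy₂; nlinarith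
    · exact h
  have hy₂lt : y₂ < y₁ := by
    rcases hy₂1.eq_or_lt with h | h
    · rw [h, hα1] at hy₂; nlinarith
    · exact h
  have hα2 : y₂ ^ (2 * s - 1) = α * ((g s) 0 + (g s) y₂) := by linarith
  have hδ := hstrict y₂ hy₂pos.le hy₂lt
  set δ : ℝ := (g s) y₂ - (g s) y₁ with hδdef
  have hδpos : 0 < δ := by linarith
  set a : ℝ := α * (1 + δ / (4 * (g s) 0)) with ha
  have hapos : 0 < a := by positivity
  have haα : α < a := by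
    rw [ha]
    have : 0 < α * (δ / (4 * (g s) 0)) := by positivity
    linarith
  have hsum : y₁ ^ (2 * s - 1) + y₂ ^ (2 * s - 1) = α * (2 * (g s) 0 + δ) := by
    rw [hα1, hα2, hδdef]; ring
  have hlt : (g s) 0 * (2 * a) < y₁ ^ (2 * s - 1) + y₂ ^ (2 * s - 1) := by
    rw [hsum, ha]
    have : (g s) 0 * (2 * (α * (1 + δ / (4 * (g s) 0)))) = α * (2 * (g s) 0 + δ / 2) := by
      field_simp
      ring
    rw [this]
    nlinarith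
  have hc : 1 < 2 * a * ∫ ξ, cos (π * ξ) ^ 2 * (R s) (y₂ ^ (2 * s)) ξ := by
    rw [(int_cos_sq s) hy₂pos, Real.rpow_neg hy₂pos.le]
    have h1 : 0 < y₂ ^ (2 * s - 1) := by positivity
    have h2 : 2 * a * ((y₂ ^ (2 * s - 1))⁻¹ * (((g s) 0 + (g s) y₂) / 2)) = a / α := by
      have h3 : (g s) 0 + (g s) y₂ = y₂ ^ (2 * s - 1) / α := by rw [hα2]; field_simp
      rw [h3]; field_simp
    rw [h2, lt_div_iff₀ hαpos]; linarith
  have hs' : 1 < 2 * a * ∫ ξ, sin (π * ξ) ^ 2 * (R s) (y₁ ^ (2 * s)) ξ := by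
    rw [(int_sin_sq s) hy₁pos, Real.rpow_neg hy₁pos.le]
    have h1 : 0 < y₁ ^ (2 * s - 1) := by positivity
    have h2 : 2 * a * ((y₁ ^ (2 * s - 1))⁻¹ * (((g s) 0 - (g s) y₁) / 2)) = a / α := by
      have h3 : (g s) 0 - (g s) y₁ = y₁ ^ (2 * s - 1) / α := by rw [hα1]; field_simp
      rw [h3]; field_simp
    rw [h2, lt_div_iff₀ hαpos]; linarith
  obtain ⟨W, hW0, hW1, hW2, hW3⟩ := two_well s hapos (l₁ := y₁ ^ (2 * s))
    (l₂ := y₂ ^ (2 * s)) (by positivity)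
    (Real.rpow_le_rpow hy₂pos.le hy₂lt.le (by linarith)) hc hs'
  refine ⟨W, hW0, hW1, by rw [hW2]; linarith, y₁ ^ (2 * s), y₂ ^ (2 * s), by positivity,
    by positivity, ?_, hW3⟩
  rw [hW2]
  have hpow : ∀ y : ℝ, 0 < y → y ^ (2 * s - 1) = (y ^ (2 * s)) ^ (1 - 1 / (2 * s)) := by
    intro y hy
    rw [← Real.rpow_mul hy.le]
    congr 1
    field_simp
  rw [← hpow y₁ hy₁pos, ← hpow y₂ hy₂pos]
  exact hlt

end Pool.Agent.H42.LTS
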