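import Pool.Agent.H42.LTS.Form
import Pool.Agent.H42.LTS.Well

/-!
# The one-particle constant is smaller than the sharp constant for every `s > 1`
-/

set_option autoImplicit false
set_option linter.unusedSectionVars false

open MeasureTheory Real Filter Topology
open scoped FourierTransform RealInnerProductSpace SchwartzMap ContDiff ENNReal

namespace Pool.Agent.H42.LTS

section

variable (s : ℝ) [hs : Fact (1 < s)]

/-! ### Lower bound -/

/-- Lower bound of the form. -/
lemma energy_ge {V : ℝ → ℝ} (hV : Admissible V) {f : L2} (hf : f ∈ formDomain s V) :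
    -((g s 0 * ∫ x, max (-V x) 0) ^ (2 * s / (2 * s - 1))) * ‖f‖ ^ 2 ≤ energy s V f := by
  obtain ⟨hk, hi⟩ := hf
  have h1s := hs.out
  have hp1 : 0 < 2 * s - 1 := by linarith
  have hg := g_zero_pos s
  have hM : 0 ≤ ∫ x, max (-V x) 0 := integral_nonneg fun x => le_max_right _ _
  have hK : 0 ≤ (kin s f).toReal := ENNReal.toReal_nonneg
  have hpot : ∀ l : ℝ, 0 < l →
      -((∫ x, max (-V x) 0) * ((∫ ξ, R s l ξ) * (l * ‖f‖ ^ 2 + (kin s f).toReal))) ≤
        ∫ x, V x * ‖f x‖ ^ 2 := by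
    intro l hl
    rw [← integral_mul_const, ← integral_neg]
    refine integral_mono_ae ((hV.1.mul_const _).neg) hi ?_
    filter_upwards [sup_bound2 s hk hl] with x hx
    have h1 : 0 ≤ max (-V x) 0 := le_max_right _ _
    have h2 : -V x ≤ max (-V x) 0 := le_max_left _ _
    have h3 : 0 ≤ ‖f x‖ ^ 2 := by positivity
    have h4 := mul_le_mul_of_nonneg_left hx h1
    have h5 := mul_le_mul_of_nonneg_right h2 h3
    linarith
  unfold energy
  rcases hM.eq_or_lt with h0 | h0
  · have h1 := hpot 1 one_pos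
    rw [← h0, zero_mul] at h1
    have hne : 2 * s / (2 * s - 1) ≠ 0 := by
      have : 0 < 2 * s / (2 * s - 1) := by positivity
      exact this.ne'
    rw [← h0, mul_zero, Real.zero_rpow hne]
    linarith
  · set M := ∫ x, max (-V x) 0 with hMdef
    have hgM : 0 < g s 0 * M := by positivity
    set y : ℝ := (g s 0 * M) ^ (1 / (2 * s - 1)) with hy
    have hypos : 0 < y := by positivity
    have hy1 : y ^ (2 * s) = (g s 0 * M) ^ (2 * s / (2 * s - 1)) := by
      rw [hy, ← Real.rpow_mul hgM.le]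
      congr 1
      field_simp
    have hy2 : y ^ (-(2 * s - 1)) = (g s 0 * M)⁻¹ := by
      rw [hy, ← Real.rpow_mul hgM.le, ← Real.rpow_neg_one]
      congr 1
      field_simp
    have h1 := hpot (y ^ (2 * s)) (by positivity)
    rw [int_R s hypos, hy2] at h1
    have h2 : M * ((g s 0 * M)⁻¹ * g s 0 * (y ^ (2 * s) * ‖f‖ ^ 2 + (kin s f).toReal)) =
        y ^ (2 * s) * ‖f‖ ^ 2 + (kin s f).toReal := by
      field_simp
    rw [h2, hy1] at h1
    linarith

/-- Subspaces of positive finite dimension contain unit vectors. -/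
lemma exists_unit {U : Submodule ℂ L2} {n : ℕ} (hU : Module.finrank ℂ U = n + 1) :
    ∃ f ∈ U, ‖f‖ = 1 := by
  have hne : U ≠ ⊥ := by
    rintro rfl
    rw [finrank_bot] at hU
    omega
  obtain ⟨f, hf, hf0⟩ := U.exists_mem_ne_zero_of_ne_bot hne
  have hN : ‖f‖ ≠ 0 := norm_ne_zero_iff.2 hf0
  refine ⟨((‖f‖⁻¹ : ℝ) : ℂ) • f, U.smul_mem _ hf, ?_⟩
  rw [norm_smul, Complex.norm_real, norm_inv, norm_norm, inv_mul_cancel₀ hN]

lemma minMax_ge {V : ℝ → ℝ} (hV : Admissible V) (n : ℕ) :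
    ((-((g s 0 * ∫ x, max (-V x) 0) ^ (2 * s / (2 * s - 1))) : ℝ) : EReal) ≤ minMax s V n := by
  refine le_iInf fun U => le_iInf fun hU => le_iInf fun hd => ?_
  obtain ⟨f, hf, hf1⟩ := exists_unit hU
  refine le_iSup_of_le f (le_iSup_of_le hf (le_iSup_of_le hf1 ?_))
  have h := energy_ge s hV (hd hf)
  rw [hf1, one_pow, mul_one] at h
  exact_mod_cast h

/-- The one-particle bound with constant `g s 0`. -/
lemma one_particle {V : ℝ → ℝ} (hV : Admissible V) :
    negPow s (minMax s V 0) ≤ ENNReal.ofReal (g s 0) * ∫⁻ x, ENNReal.ofReal (-V x) := by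
  have h1s := hs.out
  have hp1 : 0 < 2 * s - 1 := by linarith
  have hg := g_zero_pos s
  have hM : 0 ≤ ∫ x, max (-V x) 0 := integral_nonneg fun x => le_max_right _ _
  have h1 := minMax_ge s hV 0
  set B : ℝ := (g s 0 * ∫ x, max (-V x) 0) ^ (2 * s / (2 * s - 1)) with hB
  have h2 : -minMax s V 0 ≤ ((B : ℝ) : EReal) := by
    rw [EReal.neg_le]
    have : -((B : ℝ) : EReal) = ((-B : ℝ) : EReal) := (EReal.coe_neg B).symm
    rw [this]
    exact h1
  have hγ : 0 ≤ 1 - 1 / (2 * s) := by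
    have : 1 / (2 * s) ≤ 1 := by
      rw [div_le_one (by linarith)]
      linarith
    linarith
  have h3 : negPow s (minMax s V 0) ≤ ENNReal.ofReal B ^ (1 - 1 / (2 * s)) := by
    unfold negPow
    refine ENNReal.rpow_le_rpow ?_ hγ
    have h4 := EReal.toENNReal_le_toENNReal h2
    rwa [EReal.toENNReal_of_ne_top (EReal.coe_ne_top _), EReal.toReal_coe] at h4
  refine h3.trans (le_of_eq ?_)
  have h5 : ∫⁻ x, ENNReal.ofReal (-V x) = ENNReal.ofReal (∫ x, max (-V x) 0) := by
    rw [ofReal_integral_eq_lintegral_ofReal hV.1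
      (Filter.Eventually.of_forall fun x => le_max_right _ _)]
    refine lintegral_congr fun x => ?_
    rcases le_total (-V x) 0 with h | h
    · rw [max_eq_right h, ENNReal.ofReal_of_nonpos h, ENNReal.ofReal_zero]
    · rw [max_eq_left h]
  have hB0 : 0 ≤ B := by positivity
  rw [h5, ← ENNReal.ofReal_mul hg.le, ENNReal.ofReal_rpow_of_nonneg hB0 hγ]
  congr 1
  rw [hB, ← Real.rpow_mul (by positivity)]
  have h6 : 2 * s / (2 * s - 1) * (1 - 1 / (2 * s)) = 1 := by
    field_simp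
  rw [h6, Real.rpow_one]

/-! ### Upper bounds from trial functions -/

lemma minMax_le {V : ℝ → ℝ} {n : ℕ} (U : Submodule ℂ L2) (hU : Module.finrank ℂ U = n + 1)
    (hd : (U : Set L2) ⊆ formDomain s V) {l : ℝ} (h : ∀ f ∈ U, energy s V f ≤ -l * ‖f‖ ^ 2) :
    minMax s V n ≤ ((-l : ℝ) : EReal) := by
  refine iInf_le_of_le U (iInf_le_of_le hU (iInf_le_of_le hd ?_))
  refine iSup_le fun f => iSup_le fun hf => iSup_le fun hf1 => ?_
  have h1 := h f hf
  rw [hf1, one_pow, mul_one] at h1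
  exact_mod_cast h1

lemma norm_toLp_sq (φ : 𝓢(ℝ, ℂ)) : ‖(φ.toLp 2 : L2)‖ ^ 2 = N φ := by
  rw [norm_sq]
  unfold N
  refine integral_congr_ae ?_
  filter_upwards [φ.coeFn_toLp 2 volume] with x hx
  rw [hx]

lemma kin_toLp (φ : 𝓢(ℝ, ℂ)) : kin s (φ.toLp 2 : L2) = ENNReal.ofReal (K s φ) := by
  have hK : K s φ = ∫ ξ, w s ξ * ‖(𝓕 φ : 𝓢(ℝ, ℂ)) ξ‖ ^ 2 := rfl
  rw [kin_eq s, hK, ofReal_integral_eq_lintegral_ofReal (integrable_w_sq s (𝓕 φ : 𝓢(ℝ, ℂ)))
    (Filter.Eventually.of_forall fun ξ => mul_nonneg (w_nonneg s ξ) (by positivity))]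
  refine lintegral_congr_ae ?_
  rw [SchwartzMap.toLp_fourier_eq]
  filter_upwards [(𝓕 φ : 𝓢(ℝ, ℂ)).coeFn_toLp 2 volume] with x hx
  rw [hx]

lemma mem_formDomain {W : ℝ → ℝ} (hW : Integrable W) (φ : 𝓢(ℝ, ℂ)) :
    (φ.toLp 2 : L2) ∈ formDomain s (fun x => -W x) := by
  refine ⟨?_, ?_⟩
  · rw [kin_toLp s]
    exact ENNReal.ofReal_lt_top
  · refine (integrable_W_sq hW φ).neg.congr ?_
    filter_upwards [φ.coeFn_toLp 2 volume] with x hx
    rw [hx]
    simp

lemma energy_toLp {W : ℝ → ℝ} (φ : 𝓢(ℝ, ℂ)) :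
    energy s (fun x => -W x) (φ.toLp 2 : L2) = En s W φ := by
  unfold energy En
  rw [kin_toLp s, ENNReal.toReal_ofReal (K_nonneg s φ), sub_eq_add_neg, ← integral_neg]
  congr 1
  refine integral_congr_ae ?_
  filter_upwards [φ.coeFn_toLp 2 volume] with x hx
  rw [hx]
  simp

lemma toLp_comb (φ ψ : 𝓢(ℝ, ℂ)) (c b : ℂ) :
    ((c • φ + b • ψ).toLp 2 : L2) = c • (φ.toLp 2 : L2) + b • (ψ.toLp 2 : L2) := by
  have h := (SchwartzMap.toLpCLM ℂ (E := ℝ) ℂ 2 volume).map_add (c • φ) (b • ψ)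
  rw [map_smul, map_smul] at h
  simpa using h

lemma admissible_neg {W : ℝ → ℝ} (hW0 : ∀ x, 0 ≤ W x) (hW : Integrable W) :
    Admissible (fun x => -W x) := by
  constructor
  · refine hW.congr (Filter.Eventually.of_forall fun x => ?_)
    simp only [neg_neg]
    rw [max_eq_left (hW0 x)]
  · have h : (fun x => max (-W x) 0) = fun _ => (0 : ℝ) := by
      funext x
      exact max_eq_right (by have := hW0 x; linarith)
    rw [h]
    exact locallyIntegrable_const 0

/-- Values of `negPow` below a negative number. -/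
lemma le_negPow {E : EReal} {l : ℝ} (hl : 0 < l) (h : E ≤ ((-l : ℝ) : EReal)) :
    ENNReal.ofReal (l ^ (1 - 1 / (2 * s))) ≤ negPow s E := by
  have h1s := hs.out
  have hγ : 0 ≤ 1 - 1 / (2 * s) := by
    have : 1 / (2 * s) ≤ 1 := by
      rw [div_le_one (by linarith)]
      linarith
    linarith
  unfold negPow
  rw [← ENNReal.ofReal_rpow_of_nonneg hl.le hγ]
  refine ENNReal.rpow_le_rpow ?_ hγ
  have h2 : ((l : ℝ) : EReal) ≤ -E := by
    rw [EReal.le_neg]
    have : -((l : ℝ) : EReal) = ((-l : ℝ) : EReal) := (EReal.coe_neg l).symm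
    rw [this]
    exact h
  have h4 := EReal.toENNReal_le_toENNReal h2
  rwa [EReal.toENNReal_of_ne_top (EReal.coe_ne_top _), EReal.toReal_coe] at h4

/-- Strict inequality of the two constants for `s > 1`. -/
theorem main : oneParticleConst s < sharpConst s := by
  have hg := g_zero_pos s
  obtain ⟨W, hW0, hW, hWpos, l₁, l₂, hl₁, hl₂, hlt, f₁, f₂, hN1, hN2, hE1, hE2, hN⟩ := violation s
  set V : ℝ → ℝ := fun x => -W x with hV
  set F₁ : L2 := f₁.toLp 2 with hF₁
  set F₂ : L2 := f₂.toLp 2 with hF₂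
  -- first level
  have hF10 : F₁ ≠ 0 := by
    intro h
    have h1 := norm_toLp_sq f₁
    rw [← hF₁, h, norm_zero] at h1
    linarith [h1, hN1]
  have hm1 : minMax s V 0 ≤ ((-l₁ : ℝ) : EReal) := by
    refine minMax_le s (Submodule.span ℂ {F₁}) (by rw [finrank_span_singleton hF10]) ?_ ?_
    · intro f hf
      obtain ⟨b, rfl⟩ := Submodule.mem_span_singleton.1 hf
      have h := toLp_comb f₁ f₁ b 0
      rw [zero_smul, zero_smul, add_zero, add_zero] at h
      rw [hF₁, ← h]
      exact mem_formDomain s hW _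
    · intro f hf
      obtain ⟨b, rfl⟩ := Submodule.mem_span_singleton.1 hf
      have h := toLp_comb f₁ f₁ b 0
      rw [zero_smul, zero_smul, add_zero, add_zero] at h
      rw [hF₁, ← h, hV, energy_toLp s, norm_toLp_sq]
      exact hE1 b
  -- second level
  have hli : LinearIndependent ℂ ![F₂, F₁] := by
    rw [LinearIndependent.pair_iff]
    intro c b hcb
    rw [hF₁, hF₂, ← toLp_comb] at hcb
    have h1 := norm_toLp_sq (c • f₂ + b • f₁)
    rw [hcb, norm_zero, hN c b] at h1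
    have h2 : 0 ≤ ‖c‖ ^ 2 * N f₂ := by positivity
    have h3 : 0 ≤ ‖b‖ ^ 2 * N f₁ := by positivity
    have h4 : ‖c‖ ^ 2 * N f₂ = 0 := by linarith [h1]
    have h5 : ‖b‖ ^ 2 * N f₁ = 0 := by linarith [h1]
    constructor
    · have := (mul_eq_zero.1 h4).resolve_right hN2.ne'
      simpa using this
    · have := (mul_eq_zero.1 h5).resolve_right hN1.ne'
      simpa using this
  have hrank : Module.finrank ℂ (Submodule.span ℂ (Set.range ![F₂, F₁])) = 1 + 1 := by
    rw [finrank_span_eq_card hli]; simp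
  have hr : Set.range ![F₂, F₁] = {F₂, F₁} := by simp [Set.pair_comm]
  have hm2 : minMax s V 1 ≤ ((-l₂ : ℝ) : EReal) := by
    refine minMax_le s (Submodule.span ℂ (Set.range ![F₂, F₁])) hrank ?_ ?_
    · intro f hf
      rw [hr, SetLike.mem_coe, Submodule.mem_span_pair] at hf
      obtain ⟨c, b, rfl⟩ := hf
      rw [hF₁, hF₂, ← toLp_comb]
      exact mem_formDomain s hW _
    · intro f hf
      rw [hr, Submodule.mem_span_pair] at hf
      obtain ⟨c, b, rfl⟩ := hf
      rw [hF₁, hF₂, ← toLp_comb, hV, energy_toLp s, norm_toLp_sq]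
      exact hE2 c b
  -- conclusion
  have hone : oneParticleConst s ≤ ENNReal.ofReal (g s 0) :=
    sInf_le fun V hV => one_particle s hV
  set S : ℝ := l₁ ^ (1 - 1 / (2 * s)) + l₂ ^ (1 - 1 / (2 * s)) with hS
  have hint : ∫⁻ x, ENNReal.ofReal (-V x) = ENNReal.ofReal (∫ x, W x) := by
    rw [ofReal_integral_eq_lintegral_ofReal hW (Filter.Eventually.of_forall hW0)]
    refine lintegral_congr fun x => ?_
    rw [hV, neg_neg]
  have hsharp : ENNReal.ofReal (S / ∫ x, W x) ≤ sharpConst s := by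
    refine le_sInf fun C hC => ?_
    have h1 := hC V (admissible_neg hW0 hW)
    have h2 : ENNReal.ofReal S ≤ ∑' n, negPow s (minMax s V n) := by
      have h3 : ∑ n ∈ Finset.range 2, negPow s (minMax s V n) ≤
          ∑' n, negPow s (minMax s V n) := ENNReal.sum_le_tsum _
      refine le_trans ?_ h3
      rw [Finset.sum_range_succ, Finset.sum_range_one, hS,
        ENNReal.ofReal_add (by positivity) (by positivity)]
      exact add_le_add (le_negPow s hl₁ hm1) (le_negPow s hl₂ hm2)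
    have h4 := h2.trans h1
    rw [hint] at h4
    rw [ENNReal.ofReal_div_of_pos hWpos]
    exact ENNReal.div_le_of_le_mul h4
  refine lt_of_le_of_lt hone (lt_of_lt_of_le ?_ hsharp)
  rw [ENNReal.ofReal_lt_ofReal_iff_of_nonneg hg.le, lt_div_iff₀ hWpos]
  exact hlt

end

end Pool.Agent.H42.LTS
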