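import Mathlib

set_option autoImplicit false
set_option linter.unusedSectionVars false

open MeasureTheory Real Filter Topology
open scoped FourierTransform RealInnerProductSpace

namespace Pool.Agent.H42.LTS

variable (s : ℝ) [hs : Fact (1 < s)]

/-- The symbol `(2 π |ξ|) ^ (2 s)` of `(-Δ) ^ s`. -/
noncomputable def w (ξ : ℝ) : ℝ := (2 * π * |ξ|) ^ (2 * s)

lemma w_nonneg (ξ : ℝ) : 0 ≤ (w s) ξ := by unfold w; positivity

lemma w_neg (ξ : ℝ) : (w s) (-ξ) = (w s) ξ := by unfold w; rw [abs_neg]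

lemma w_zero : (w s) 0 = 0 := by
  have h := hs.out
  unfold w
  rw [abs_zero, mul_zero, Real.zero_rpow (by linarith)]

lemma w_continuous : Continuous (w s) := by
  unfold w
  have h := hs.out
  exact (continuous_const.mul continuous_abs).rpow_const (fun x => Or.inr (by linarith))

lemma w_mul {y : ℝ} (hy : 0 ≤ y) (ξ : ℝ) : (w s) (y * ξ) = y ^ (2 * s) * (w s) ξ := by
  unfold w
  rw [abs_mul, abs_of_nonneg hy, ← Real.mul_rpow hy (by positivity)]
  congr 1; ring

lemma w_ge {ξ : ℝ} (h : 1 ≤ |ξ|) : ξ ^ 2 ≤ (w s) ξ := by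
  unfold w
  have h2 : |ξ| ≤ 2 * π * |ξ| := by
    have := Real.pi_gt_three
    nlinarith [abs_nonneg ξ]
  have h3 := hs.out
  calc ξ ^ 2 = |ξ| ^ (2 : ℝ) := by rw [← sq_abs]; norm_cast
    _ ≤ |ξ| ^ (2 * s) := Real.rpow_le_rpow_of_exponent_le h (by linarith)
    _ ≤ (2 * π * |ξ|) ^ (2 * s) := Real.rpow_le_rpow (abs_nonneg _) h2 (by linarith)

/-- The resolvent symbol. -/
noncomputable def R (l ξ : ℝ) : ℝ := 1 / (l + (w s) ξ)

lemma den_pos {l : ℝ} (hl : 0 < l) (ξ : ℝ) : 0 < l + (w s) ξ := by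
  have := (w_nonneg s) ξ; linarith

lemma R_pos {l : ℝ} (hl : 0 < l) (ξ : ℝ) : 0 < (R s) l ξ := by
  unfold R; exact one_div_pos.2 ((den_pos s) hl ξ)

lemma R_neg (l ξ : ℝ) : (R s) l (-ξ) = (R s) l ξ := by unfold R; rw [(w_neg s)]

lemma R_continuous {l : ℝ} (hl : 0 < l) : Continuous ((R s) l) := by
  unfold R
  exact continuous_const.div (continuous_const.add (w_continuous s)) (fun ξ => ((den_pos s) hl ξ).ne')

lemma den_ge {l : ℝ} (hl : 0 < l) (ξ : ℝ) : min 1 l / 2 * (1 + ξ ^ 2) ≤ l + (w s) ξ := by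
  have hm : 0 < min 1 l := lt_min one_pos hl
  have hm1 : min 1 l ≤ 1 := min_le_left _ _
  have hml : min 1 l ≤ l := min_le_right _ _
  have hw := (w_nonneg s) ξ
  rcases le_total 1 |ξ| with h | h
  · have h1 := (w_ge s) h
    have h2 : 1 ≤ ξ ^ 2 := by rw [← sq_abs]; nlinarith
    nlinarith
  · have h2 : ξ ^ 2 ≤ 1 := by rw [← sq_abs]; nlinarith [abs_nonneg ξ]
    nlinarith

lemma R_le {l : ℝ} (hl : 0 < l) (ξ : ℝ) : (R s) l ξ ≤ (2 / min 1 l) * (1 + ξ ^ 2)⁻¹ := by
  unfold R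
  have hm : 0 < min 1 l := lt_min one_pos hl
  have h1 : (2 / min 1 l) * (1 + ξ ^ 2)⁻¹ = 1 / (min 1 l / 2 * (1 + ξ ^ 2)) := by
    have : 0 < 1 + ξ ^ 2 := by positivity
    field_simp
  rw [h1]
  exact one_div_le_one_div_of_le (by positivity) ((den_ge s) hl ξ)

lemma R_integrable {l : ℝ} (hl : 0 < l) : Integrable ((R s) l) := by
  refine Integrable.mono' (integrable_inv_one_add_sq.const_mul (2 / min 1 l))
    ((R_continuous s) hl).aestronglyMeasurable (Filter.Eventually.of_forall (fun ξ => ?_))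
  rw [Real.norm_of_nonneg ((R_pos s) hl ξ).le]
  exact (R_le s) hl ξ

lemma R_mul_integrable {l : ℝ} (hl : 0 < l) {F : ℝ → ℝ} (hF : Continuous F)
    (hF1 : ∀ x, |F x| ≤ 1) : Integrable (fun ξ => F ξ * (R s) l ξ) := by
  refine ((R_integrable s) hl).bdd_mul (c := 1) hF.aestronglyMeasurable ?_
  exact Filter.Eventually.of_forall (fun ξ => by rw [Real.norm_eq_abs]; exact hF1 ξ)

/-- The Green function of `(-Δ) ^ s + 1`. -/
noncomputable def g (y : ℝ) : ℝ := ∫ ξ, cos (2 * π * y * ξ) * (R s) 1 ξ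

lemma g_neg (y : ℝ) : (g s) (-y) = (g s) y := by
  unfold g
  congr 1
  funext ξ
  rw [show 2 * π * (-y) * ξ = -(2 * π * y * ξ) by ring, Real.cos_neg]

lemma g_continuous : Continuous (g s) := by
  unfold g
  refine continuous_of_dominated (bound := (R s) 1) (fun y => ?_) (fun y => ?_) ((R_integrable s) one_pos) ?_
  · exact ((by fun_prop : Continuous (fun ξ : ℝ => cos (2 * π * y * ξ))).mul
      ((R_continuous s) one_pos)).aestronglyMeasurable
  · refine Filter.Eventually.of_forall (fun ξ => ?_)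
    rw [norm_mul, Real.norm_of_nonneg ((R_pos s) one_pos ξ).le, Real.norm_eq_abs]
    exact mul_le_of_le_one_left ((R_pos s) one_pos ξ).le (Real.abs_cos_le_one _)
  · refine Filter.Eventually.of_forall (fun ξ => ?_)
    fun_prop

lemma g_zero_pos : 0 < (g s) 0 := by
  have h : (g s) 0 = ∫ ξ, (R s) 1 ξ := by
    unfold g
    congr 1
    funext ξ
    simp
  rw [h, integral_pos_iff_support_of_nonneg (fun ξ => ((R_pos s) one_pos ξ).le) ((R_integrable s) one_pos)]
  have : Function.support ((R s) 1) = Set.univ := by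
    ext ξ
    simp [((R_pos s) one_pos ξ).ne']
  rw [this]
  simp

lemma abs_g_le (y : ℝ) : |(g s) y| ≤ (g s) 0 := by
  have h : (g s) 0 = ∫ ξ, (R s) 1 ξ := by
    unfold g
    congr 1
    funext ξ
    simp
  rw [h]
  unfold g
  refine (abs_integral_le_integral_abs).trans ?_
  refine integral_mono_of_nonneg (Filter.Eventually.of_forall (fun ξ => abs_nonneg _))
    ((R_integrable s) one_pos) (Filter.Eventually.of_forall (fun ξ => ?_))
  simp only
  rw [abs_mul, abs_of_pos ((R_pos s) one_pos ξ)]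
  exact mul_le_of_le_one_left ((R_pos s) one_pos ξ).le (Real.abs_cos_le_one _)

/-! ### The Green function takes negative values -/

/-- complexified symbol -/
noncomputable def Rc (ξ : ℝ) : ℂ := (((R s) 1 ξ : ℝ) : ℂ)

lemma Rc_integrable : Integrable (Rc s) := ((R_integrable s) one_pos).ofReal

lemma Rc_continuous : Continuous (Rc s) := Complex.continuous_ofReal.comp ((R_continuous s) one_pos)

lemma R_sin_integral (y : ℝ) : ∫ ξ, sin (2 * π * y * ξ) * (R s) 1 ξ = 0 := by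
  have h := integral_neg_eq_self (fun ξ => sin (2 * π * y * ξ) * (R s) 1 ξ) volume
  have h2 : (fun ξ => sin (2 * π * y * (-ξ)) * (R s) 1 (-ξ)) =
      fun ξ => - (sin (2 * π * y * ξ) * (R s) 1 ξ) := by
    funext ξ
    rw [(R_neg s), show 2 * π * y * (-ξ) = -(2 * π * y * ξ) by ring, Real.sin_neg]
    ring
  rw [h2, integral_neg] at h
  linarith

lemma fourier_Rc (y : ℝ) : 𝓕 (Rc s) y = (((g s) y : ℝ) : ℂ) := by
  rw [Real.fourier_real_eq_integral_exp_smul]
  have h1 : ∀ ξ : ℝ, Complex.exp (((-2 * π * ξ * y : ℝ) : ℂ) * Complex.I) • (Rc s) ξ =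
      ((cos (2 * π * y * ξ) * (R s) 1 ξ : ℝ) : ℂ) -
        Complex.I * ((sin (2 * π * y * ξ) * (R s) 1 ξ : ℝ) : ℂ) := by
    intro ξ
    unfold Rc
    rw [Complex.exp_mul_I, ← Complex.ofReal_cos, ← Complex.ofReal_sin,
      show (-2 * π * ξ * y) = -(2 * π * y * ξ) by ring, Real.cos_neg, Real.sin_neg]
    push_cast
    rw [smul_eq_mul]
    ring
  simp_rw [h1]
  rw [integral_sub]
  · rw [integral_const_mul, integral_complex_ofReal, integral_complex_ofReal, (R_sin_integral s)]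
    simp [g]
  · exact ((R_mul_integrable s) one_pos (by fun_prop) (fun x => Real.abs_cos_le_one _)).ofReal
  · exact (((R_mul_integrable s) one_pos (by fun_prop)
      (fun x => Real.abs_sin_le_one _)).ofReal).const_mul _

lemma tendsto_key (v : ℝ) : Tendsto (fun c : ℝ =>
    ∫ x : ℝ, Complex.exp (-c⁻¹ * ‖x‖ ^ 2 + 2 * π * Complex.I * (⟪v, x⟫ : ℝ)) • 𝓕 (Rc s) x)
    atTop (𝓝 ((Rc s) v)) := by
  have h := tendsto_integral_gaussian_smul' (Rc_integrable s) ((Rc_continuous s).continuousAt (x := v))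
  refine h.congr' ?_
  filter_upwards [Ioi_mem_atTop 0] with c hc
  have hc' : (0 : ℝ) < c := hc
  have J : Integrable (fun x : ℝ =>
      Complex.exp (-c⁻¹ * ‖x‖ ^ 2 + 2 * π * Complex.I * (⟪v, x⟫ : ℝ))) :=
    GaussianFourier.integrable_cexp_neg_mul_sq_norm_add (by simpa) _ _
  have h2 := (VectorFourier.integral_fourierIntegral_smul_eq_flip (L := innerₗ ℝ)
      Real.continuous_fourierChar continuous_inner J (Rc_integrable s))
  have h3 : ∫ x : ℝ, Complex.exp (-c⁻¹ * ‖x‖ ^ 2 + 2 * π * Complex.I * (⟪v, x⟫ : ℝ)) • 𝓕 (Rc s) x =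
      ∫ x : ℝ, 𝓕 (fun x : ℝ => Complex.exp (-c⁻¹ * ‖x‖ ^ 2 +
        2 * π * Complex.I * (⟪v, x⟫ : ℝ))) x • (Rc s) x := by
    simpa using! h2.symm
  rw [h3]
  congr with x
  rw [fourier_gaussian_innerProductSpace' (by simpa)]
  have e1 : (π : ℂ) / ((c⁻¹ : ℝ) : ℂ) = π * c := by simp
  have e2 : -(π : ℂ) ^ 2 * ‖v - x‖ ^ 2 / ((c⁻¹ : ℝ) : ℂ) = -(π : ℂ) ^ 2 * c * ‖v - x‖ ^ 2 := by
    simp; ring
  rw [e1, e2]

/-- Gaussian regularisation. -/
noncomputable def Ic (c v : ℝ) : ℝ := ∫ x : ℝ, (exp (-(c⁻¹ * x ^ 2)) * cos (2 * π * v * x)) * (g s) x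

lemma gauss_integrable {c : ℝ} (hc : 0 < c) : Integrable (fun x : ℝ => exp (-(c⁻¹ * x ^ 2))) := by
  have := integrable_exp_neg_mul_sq (inv_pos.2 hc)
  simpa using this

lemma gauss_mul_integrable {c : ℝ} (hc : 0 < c) {F : ℝ → ℝ} (hF : Continuous F) {C : ℝ}
    (hC : ∀ x, |F x| ≤ C) : Integrable (fun x : ℝ => exp (-(c⁻¹ * x ^ 2)) * F x) := by
  refine (gauss_integrable hc).mul_bdd (c := C) hF.aestronglyMeasurable ?_
  exact Filter.Eventually.of_forall (fun ξ => by rw [Real.norm_eq_abs]; exact hC ξ)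

lemma re_key {c : ℝ} (hc : 0 < c) (v : ℝ) :
    (∫ x : ℝ, Complex.exp (-c⁻¹ * ‖x‖ ^ 2 + 2 * π * Complex.I * (⟪v, x⟫ : ℝ)) • 𝓕 (Rc s) x).re =
      (Ic s) c v := by
  have hpt : ∀ x : ℝ, Complex.exp (-c⁻¹ * ‖x‖ ^ 2 + 2 * π * Complex.I * (⟪v, x⟫ : ℝ)) • 𝓕 (Rc s) x =
      (((exp (-(c⁻¹ * x ^ 2)) * cos (2 * π * v * x)) * (g s) x : ℝ) : ℂ) +
      (((exp (-(c⁻¹ * x ^ 2)) * sin (2 * π * v * x)) * (g s) x : ℝ) : ℂ) * Complex.I := by
    intro x
    rw [(fourier_Rc s), Complex.exp_add]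
    have h1 : Complex.exp (-c⁻¹ * ‖x‖ ^ 2) = ((exp (-(c⁻¹ * x ^ 2)) : ℝ) : ℂ) := by
      push_cast
      congr 1
      rw [Real.norm_eq_abs]
      have : ((|x| : ℝ) : ℂ) ^ 2 = (x : ℂ) ^ 2 := by
        rw [← Complex.ofReal_pow, sq_abs, Complex.ofReal_pow]
      rw [this]
      ring
    have h2 : Complex.exp (2 * π * Complex.I * (⟪v, x⟫ : ℝ)) =
        ((cos (2 * π * v * x) : ℝ) : ℂ) + ((sin (2 * π * v * x) : ℝ) : ℂ) * Complex.I := by
      rw [Complex.ofReal_cos, Complex.ofReal_sin, ← Complex.exp_mul_I]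
      congr 1
      have : (⟪v, x⟫ : ℝ) = v * x := by
        simp [mul_comm]
      rw [this]
      push_cast
      ring
    rw [h1, h2, smul_eq_mul]
    push_cast
    ring
  simp_rw [hpt]
  have hb : ∀ F : ℝ → ℝ, Continuous F → (∀ x, |F x| ≤ 1) →
      Integrable (fun x : ℝ => (exp (-(c⁻¹ * x ^ 2)) * F x) * (g s) x) := by
    intro F hF hF1
    have h := gauss_mul_integrable hc (F := fun x => F x * (g s) x) (hF.mul (g_continuous s))
      (C := (g s) 0) (fun x => by
        rw [abs_mul]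
        calc |F x| * |(g s) x| ≤ 1 * (g s) 0 :=
              mul_le_mul (hF1 x) ((abs_g_le s) x) (abs_nonneg _) zero_le_one
          _ = (g s) 0 := one_mul _)
    simpa [mul_assoc] using h
  have i1 := hb (fun x => cos (2 * π * v * x)) (by fun_prop) (fun x => Real.abs_cos_le_one _)
  have i2 := hb (fun x => sin (2 * π * v * x)) (by fun_prop) (fun x => Real.abs_sin_le_one _)
  rw [integral_add i1.ofReal (i2.ofReal.mul_const _), integral_mul_const, integral_complex_ofReal,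
    integral_complex_ofReal]
  simp [Ic]

lemma tendsto_Ic (v : ℝ) : Tendsto (fun c : ℝ => (Ic s) c v) atTop (𝓝 ((R s) 1 v)) := by
  have h := (Complex.continuous_re.tendsto _).comp ((tendsto_key s) v)
  have h2 : ((Rc s) v).re = (R s) 1 v := by simp [Rc]
  rw [h2] at h
  refine h.congr' ?_
  filter_upwards [Ioi_mem_atTop 0] with c hc
  exact (re_key s) hc v

lemma exists_g_neg : ∃ Y : ℝ, 0 < Y ∧ (g s) Y < 0 := by
  by_contra hcon
  push Not at hcon
  have hg : ∀ x, 0 ≤ (g s) x := by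
    intro x
    rcases lt_trichotomy x 0 with h | h | h
    · rw [← (g_neg s)]; exact hcon _ (by linarith)
    · rw [h]; exact (g_zero_pos s).le
    · exact hcon x h
  -- the inequality `3 φ(0) - 4 φ(t) + φ(2t) ≥ 0`
  have hineq : ∀ t : ℝ, 0 ≤ 3 * (R s) 1 0 - 4 * (R s) 1 t + (R s) 1 (2 * t) := by
    intro t
    have hl := ((((tendsto_Ic s) 0).const_mul 3).sub (((tendsto_Ic s) t).const_mul 4)).add
      ((tendsto_Ic s) (2 * t))
    refine ge_of_tendsto hl ?_
    filter_upwards [Ioi_mem_atTop 0] with c hc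
    have hc' : (0 : ℝ) < c := hc
    have hb : ∀ F : ℝ → ℝ, Continuous F → (∀ x, |F x| ≤ 1) →
        Integrable (fun x : ℝ => (exp (-(c⁻¹ * x ^ 2)) * F x) * (g s) x) := by
      intro F hF hF1
      have h := gauss_mul_integrable hc' (F := fun x => F x * (g s) x) (hF.mul (g_continuous s))
        (C := (g s) 0) (fun x => by
          rw [abs_mul]
          calc |F x| * |(g s) x| ≤ 1 * (g s) 0 :=
                mul_le_mul (hF1 x) ((abs_g_le s) x) (abs_nonneg _) zero_le_one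
            _ = (g s) 0 := one_mul _)
      simpa [mul_assoc] using h
    have i : ∀ v : ℝ, Integrable (fun x : ℝ => (exp (-(c⁻¹ * x ^ 2)) * cos (2 * π * v * x)) * (g s) x) :=
      fun v => hb (fun x => cos (2 * π * v * x)) (by fun_prop) (fun x => Real.abs_cos_le_one _)
    unfold Ic
    have hadd := integral_add (((i 0).const_mul 3).sub ((i t).const_mul 4)) (i (2 * t))
    rw [← integral_const_mul, ← integral_const_mul, ← integral_sub ((i 0).const_mul 3)
      ((i t).const_mul 4)]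
    refine le_of_le_of_eq ?_ hadd
    refine integral_nonneg (fun x => ?_)
    have h1 : cos (2 * π * (2 * t) * x) = 2 * cos (2 * π * t * x) ^ 2 - 1 := by
      rw [← Real.cos_two_mul]; ring_nf
    have h2 : cos (2 * π * 0 * x) = 1 := by simp
    simp only [Pi.zero_apply, Pi.sub_apply]
    rw [h1, h2]
    have h3 : 3 * (exp (-(c⁻¹ * x ^ 2)) * 1 * (g s) x) - 4 * (exp (-(c⁻¹ * x ^ 2)) *
        cos (2 * π * t * x) * (g s) x) + exp (-(c⁻¹ * x ^ 2)) * (2 * cos (2 * π * t * x) ^ 2 - 1) * (g s) x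
        = exp (-(c⁻¹ * x ^ 2)) * (g s) x * (2 * (1 - cos (2 * π * t * x)) ^ 2) := by ring
    rw [h3]
    have := hg x
    positivity
  -- a point where the inequality fails
  have h1s := hs.out
  set L : ℝ := (2 : ℝ) ^ (2 * s) with hL
  have hL4 : 4 < L := by
    have h2 : (2 : ℝ) ^ (2 : ℝ) < 2 ^ (2 * s) :=
      Real.rpow_lt_rpow_of_exponent_lt (by norm_num) (by linarith)
    have h3 : (2 : ℝ) ^ (2 : ℝ) = 4 := by norm_num
    rw [h3] at h2
    exact h2
  set W : ℝ := (L - 4) / (6 * L) with hW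
  have hWpos : 0 < W := by
    have : 0 < L - 4 := by linarith
    positivity
  set t₀ : ℝ := W ^ (1 / (2 * s)) / (2 * π) with ht₀
  have ht₀pos : 0 ≤ t₀ := by positivity
  have hw1 : (w s) t₀ = W := by
    unfold w
    rw [abs_of_nonneg ht₀pos, ht₀, mul_div_cancel₀ _ (by positivity : (2 * π) ≠ 0),
      ← Real.rpow_mul hWpos.le, one_div_mul_cancel (by linarith : (2 * s) ≠ 0), Real.rpow_one]
  have hw2 : (w s) (2 * t₀) = L * W := by
    rw [w_mul s (by norm_num), hw1]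
  have h := hineq t₀
  have h9 : (R s) 1 0 = 1 := by unfold R; rw [w_zero s]; norm_num
  have h8 : (R s) 1 t₀ = 1 / (1 + W) := by unfold R; rw [hw1]
  have h7 : (R s) 1 (2 * t₀) = 1 / (1 + L * W) := by unfold R; rw [hw2]
  rw [h9, h8, h7] at h
  have hLpos : 0 < L := by linarith
  have hLW : 0 < 1 + L * W := by positivity
  have h1W : 0 < 1 + W := by positivity
  have h10 : 3 * 1 - 4 * (1 / (1 + W)) + 1 / (1 + L * W) =
      W * (3 * L * W + 4 - L) / ((1 + W) * (1 + L * W)) := by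
    field_simp
    ring
  rw [h10] at h
  have h11 : 3 * L * W + 4 - L < 0 := by
    have h12 : L * W = (L - 4) / 6 := by
      rw [hW]
      field_simp
    nlinarith
  have h13 : W * (3 * L * W + 4 - L) / ((1 + W) * (1 + L * W)) < 0 := by
    apply div_neg_of_neg_of_pos _ (by positivity)
    exact mul_neg_of_pos_of_neg hWpos h11
  linarith

end Pool.Agent.H42.LTS
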